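import Pool.Agent.L0h45.AV.Stm

/-!
# AV, module EVP: the element `x - θ` of a rational point has even valuations
-/

set_option autoImplicit false
set_option linter.all false

open IsDedekindDomain NumberField
open scoped Classical

namespace Pool.Agent.L0h26.AV

open Pool.Agent.N874.PP (Ev)
open Pool.Agent.N922.PQ (dsc IsCub)
open Pool.Agent.L0h45.AV

section

variable {L O : Type} [Field L] [NumberField L] [CommRing O] [IsDedekindDomain O]
  [Algebra O L] [IsFractionRing O L] [IsIntegralClosure O ℤ L]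

theorem mlt {x y : WithZero (Multiplicative ℤ)} (hx : x ≤ 1) (hy : y < 1) : x * y < 1 :=
  lt_of_le_of_lt (mul_le_of_le_one_left' hx) hy

theorem mlt' {x y : WithZero (Multiplicative ℤ)} (hx : x < 1) (hy : y ≤ 1) : x * y < 1 := by
  rw [mul_comm]
  exact mlt hy hx

theorem v_int (𝔓 : HeightOneSpectrum O) (n : ℤ) : 𝔓.valuation L (n : L) ≤ 1 := by
  have h : (n : L) = algebraMap O L (n : O) := (map_intCast _ _).symm
  rw [h]
  exact 𝔓.valuation_le_one _

/-- the rational prime below `𝔓` -/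
theorem below (𝔓 : HeightOneSpectrum O) : ∃ p : ℤ, Prime p ∧
    ∀ n : ℤ, 𝔓.valuation L (n : L) < 1 ↔ p ∣ n := by
  obtain ⟨p, hp⟩ := (IsPrincipalIdealRing.principal (𝔓.asIdeal.comap (algebraMap ℤ O))).principal
  have hP : (𝔓.asIdeal.comap (algebraMap ℤ O)).IsPrime := by
    haveI := 𝔓.isPrime
    exact Ideal.comap_isPrime _ _
  have hmem : ∀ n : ℤ, 𝔓.valuation L (n : L) < 1 ↔ p ∣ n := by
    intro n
    have h : (n : L) = algebraMap O L (n : O) := (map_intCast _ _).symm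
    rw [h, 𝔓.valuation_lt_one_iff_mem, ← Ideal.mem_span_singleton]
    have h1 : n ∈ 𝔓.asIdeal.comap (algebraMap ℤ O) ↔ n ∈ Ideal.span {p} := by
      rw [hp]
    rw [← h1, Ideal.mem_comap, eq_intCast]
  have hne : 𝔓.asIdeal.comap (algebraMap ℤ O) ≠ ⊥ := by
    haveI : Algebra.IsIntegral ℤ O := IsIntegralClosure.isIntegral_algebra ℤ L
    exact Ideal.IsIntegral.comap_ne_bot ℤ 𝔓.ne_bot
  have hp0 : p ≠ 0 := by
    rintro rfl
    apply hne
    rw [hp]
    exact Ideal.span_singleton_eq_bot.mpr rfl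
  refine ⟨p, ?_, hmem⟩
  rw [← Ideal.span_singleton_prime hp0]
  have h2 : 𝔓.asIdeal.comap (algebraMap ℤ O) = Ideal.span {p} := hp
  rw [← h2]
  exact hP

/-- the denominator of an integral rational number -/
theorem den_ndvd (𝔓 : HeightOneSpectrum O) {p : ℤ} (hp : Prime p)
    (hm : ∀ n : ℤ, 𝔓.valuation L (n : L) < 1 ↔ p ∣ n) (x : ℚ) (hx : 𝔓.valuation L (x : L) ≤ 1) :
    ¬ p ∣ (x.den : ℤ) := by
  intro h
  have h1 : 𝔓.valuation L ((x.den : ℤ) : L) < 1 := (hm _).mpr h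
  have h2 : ¬ p ∣ x.num := by
    intro h3
    have h4 := x.isCoprime_num_den
    exact hp.not_unit (h4.isUnit_of_dvd' h3 h)
  have h3 : 𝔓.valuation L (x.num : L) = 1 :=
    le_antisymm (v_int 𝔓 _) (not_lt.mp fun h => h2 ((hm _).mp h))
  have h4 : (x : L) * ((x.den : ℤ) : L) = (x.num : L) := by
    have := Rat.mul_den_eq_num x
    exact_mod_cast congrArg (fun q : ℚ => (q : L)) this
  have h5 : 𝔓.valuation L (x : L) * 𝔓.valuation L ((x.den : ℤ) : L) = 1 := by
    rw [← map_mul, h4, h3]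
  have h6 : 𝔓.valuation L (x : L) * 𝔓.valuation L ((x.den : ℤ) : L) < 1 :=
    mlt hx h1
  rw [h5] at h6
  exact lt_irrefl _ h6

theorem disc_dvd {a b m n k l p : ℤ} (hp : Prime p) (hn : ¬ p ∣ n) (hl : ¬ p ∣ l)
    (hk : p ∣ k) (he : l ^ 2 * (m ^ 3 + a * m * n ^ 2 + b * n ^ 3) = k ^ 2 * n ^ 3)
    (hG : p ∣ 3 * m ^ 2 + a * n ^ 2) : p ^ 2 ∣ dsc a b := by
  have h1 : p ^ 2 ∣ l ^ 2 * (m ^ 3 + a * m * n ^ 2 + b * n ^ 3) := by
    rw [he]
    exact Dvd.dvd.mul_right (pow_dvd_pow_of_dvd hk 2) _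
  have h2 : p ^ 2 ∣ m ^ 3 + a * m * n ^ 2 + b * n ^ 3 :=
    hp.pow_dvd_of_dvd_mul_left 2 (fun h => hl (hp.dvd_of_dvd_pow h)) h1
  have h3 : p ^ 2 ∣ (3 * m ^ 2 + a * n ^ 2) ^ 2 := pow_dvd_pow_of_dvd hG 2
  have h4 : n ^ 6 * dsc a b = (m ^ 3 + a * m * n ^ 2 + b * n ^ 3) *
      (27 * (m ^ 3 + a * m * n ^ 2 + b * n ^ 3) - 54 * (3 * m ^ 2 + a * n ^ 2) * m + 108 * m ^ 3) +
      (3 * m ^ 2 + a * n ^ 2) ^ 2 * (4 * (3 * m ^ 2 + a * n ^ 2) - 9 * m ^ 2) := by
    unfold dsc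
    ring
  have h5 : p ^ 2 ∣ n ^ 6 * dsc a b := by
    rw [h4]
    exact dvd_add (Dvd.dvd.mul_right h2 _) (Dvd.dvd.mul_right h3 _)
  exact hp.pow_dvd_of_dvd_mul_left 2 (fun h => hn (hp.dvd_of_dvd_pow h)) h5

end

/-- EVP -/
theorem t_EVP : S_EVP := by
  intro L O _ _ _ _ _ _ _ a b θ h hsq x y hxy 𝔓
  have hint : IsIntegral ℤ θ := by
    refine ⟨Polynomial.X ^ 3 + Polynomial.C a * Polynomial.X + Polynomial.C b, ?_, ?_⟩
    · monicity!
    · rw [Polynomial.eval₂_add, Polynomial.eval₂_add, Polynomial.eval₂_pow, Polynomial.eval₂_mul, Polynomial.eval₂_X,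
        Polynomial.eval₂_C, Polynomial.eval₂_C]
      simpa using h.root
  obtain ⟨t, ht⟩ := (IsIntegralClosure.isIntegral_iff (R := ℤ) (A := O) (B := L)).mp hint
  have hθ : 𝔓.valuation L θ ≤ 1 := by
    rw [← ht]
    exact 𝔓.valuation_le_one t
  have hz : ∀ n : ℤ, 𝔓.valuation L (n : L) ≤ 1 := fun n => v_int 𝔓 n
  obtain ⟨v, hv⟩ : ∃ v, v = 𝔓.valuation L := ⟨_, rfl⟩
  have hxyL : (y : L) ^ 2 = (x : L) ^ 3 + (a : L) * x + b := by
    exact_mod_cast congrArg (fun q : ℚ => (q : L)) hxy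
  show ∃ z : L, 𝔓.valuation L ((x : L) - θ) = 𝔓.valuation L z ^ 2
  rw [← hv] at hθ hz ⊢
  rcases lt_or_ge 1 (v (x : L)) with hx | hx
  · -- `x` is not integral
    have h1 : v ((x : L) - θ) = v (x : L) := v.map_sub_eq_of_lt_left (lt_of_le_of_lt hθ hx)
    have h2 : v ((a : L) * x + b) ≤ v (x : L) := by
      refine (v.map_add _ _).trans (max_le ?_ ((hz b).trans hx.le))
      rw [map_mul]
      exact mul_le_of_le_one_left' (hz a)
    have h3 : v (x : L) < v (x : L) ^ 3 := lt_self_pow₀ hx (by norm_num)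
    have h4 : v (y : L) ^ 2 = v (x : L) ^ 3 := by
      rw [← map_pow, hxyL, add_assoc, v.map_add_eq_of_lt_left, map_pow]
      rw [map_pow]
      exact lt_of_le_of_lt h2 h3
    have h5 : v (x : L) ≠ 0 := (lt_trans zero_lt_one hx).ne'
    refine ⟨(y : L) / x, ?_⟩
    rw [h1, map_div₀, div_pow, h4, eq_div_iff (pow_ne_zero 2 h5)]
    exact (pow_succ' _ 2).symm
  · -- `x` is integral
    have hf : ((x : L) - θ) * ((x : L) ^ 2 + x * θ + θ ^ 2 + a) = (y : L) ^ 2 := by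
      rw [hxyL]
      linear_combination (-1 : L) * h.root
    have hQ : v ((x : L) ^ 2 + x * θ + θ ^ 2 + a) ≤ 1 := by
      refine (v.map_add _ _).trans (max_le ?_ (hz a))
      refine (v.map_add _ _).trans (max_le ?_ ?_)
      · refine (v.map_add _ _).trans (max_le ?_ ?_)
        · rw [map_pow]
          exact pow_le_one' hx 2
        · rw [map_mul]
          exact mul_le_one' hx hθ
      · rw [map_pow]
        exact pow_le_one' hθ 2
    have hS : v ((x : L) - θ) ≤ 1 := (v.map_sub _ _).trans (max_le hx hθ)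
    have hm : v ((x : L) - θ) * v ((x : L) ^ 2 + x * θ + θ ^ 2 + a) = v (y : L) ^ 2 := by
      rw [← map_mul, hf, map_pow]
    rcases eq_or_lt_of_le hQ with hQ1 | hQ1
    · refine ⟨(y : L), ?_⟩
      rw [← hm, hQ1, mul_one]
    rcases eq_or_lt_of_le hS with hS1 | hS1
    · exact ⟨1, by rw [hS1, map_one, one_pow]⟩
    exfalso
    have hy : v (y : L) < 1 := by
      by_contra hy
      have h1 : 1 ≤ v (y : L) ^ 2 := one_le_pow_of_one_le' (not_lt.mp hy) 2
      rw [← hm] at h1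
      exact absurd (mlt hS hQ1) (not_lt.mpr h1)
    have hG : v (3 * (x : L) ^ 2 + a) < 1 := by
      have h1 : 3 * (x : L) ^ 2 + a = ((x : L) ^ 2 + x * θ + θ ^ 2 + a) +
          ((x : L) - θ) * (2 * x + θ) := by ring
      rw [h1]
      refine lt_of_le_of_lt (v.map_add _ _) (max_lt hQ1 ?_)
      rw [map_mul]
      refine mlt' hS1 ?_
      refine (v.map_add _ _).trans (max_le ?_ hθ)
      rw [map_mul]
      exact mul_le_one' (by exact_mod_cast hz 2) hx
    subst hv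
    obtain ⟨p, hp, hmem⟩ := below (L := L) 𝔓
    have hn := den_ndvd 𝔓 hp hmem x hx
    have hl := den_ndvd 𝔓 hp hmem y hy.le
    have hxn : (x : L) * ((x.den : ℤ) : L) = (x.num : L) := by
      have := Rat.mul_den_eq_num x
      exact_mod_cast congrArg (fun q : ℚ => (q : L)) this
    have hyn : (y : L) * ((y.den : ℤ) : L) = (y.num : L) := by
      have := Rat.mul_den_eq_num y
      exact_mod_cast congrArg (fun q : ℚ => (q : L)) this
    have hk : p ∣ y.num := by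
      rw [← hmem, ← hyn, map_mul]
      exact mlt' hy (hz _)
    have hG' : p ∣ 3 * x.num ^ 2 + a * (x.den : ℤ) ^ 2 := by
      rw [← hmem]
      have h1 : ((3 * x.num ^ 2 + a * (x.den : ℤ) ^ 2 : ℤ) : L) =
          (3 * (x : L) ^ 2 + a) * ((x.den : ℤ) : L) ^ 2 := by
        push_cast
        have h2 := hxn
        push_cast at h2
        rw [← h2]
        ring
      rw [h1, map_mul, map_pow]
      exact mlt' hG (pow_le_one' (hz _) 2)
    have he : (y.den : ℤ) ^ 2 * (x.num ^ 3 + a * x.num * (x.den : ℤ) ^ 2 + b * (x.den : ℤ) ^ 3) =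
        y.num ^ 2 * (x.den : ℤ) ^ 3 := by
      have h1 : ((y.den : ℤ) : ℚ) ^ 2 * ((x.num : ℚ) ^ 3 + a * x.num * ((x.den : ℤ) : ℚ) ^ 2 +
          b * ((x.den : ℤ) : ℚ) ^ 3) = (y.num : ℚ) ^ 2 * ((x.den : ℤ) : ℚ) ^ 3 := by
        have h2 : x * ((x.den : ℤ) : ℚ) = x.num := by exact_mod_cast Rat.mul_den_eq_num x
        have h3 : y * ((y.den : ℤ) : ℚ) = y.num := by exact_mod_cast Rat.mul_den_eq_num y
        rw [← h2, ← h3]
        linear_combination (-(((y.den : ℤ) : ℚ) ^ 2 * ((x.den : ℤ) : ℚ) ^ 3)) * hxy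
      exact_mod_cast h1
    have hd := disc_dvd hp hn hl hk he hG'
    rw [pow_two] at hd
    exact hp.not_unit (hsq p hd)

end Pool.Agent.L0h26.AV
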